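import Pool.Agent.H83.UE.Targets3

/-! Row ELI of the board `udb_modules`: elimination by counting. -/

set_option autoImplicit false

open Polynomial MeasureTheory Filter Topology Set
open scoped OnePoint ComplexConjugate ComplexOrder Laplacian ENNReal Nat

namespace Pool.Agent.H88.UDB

open Pool.Agent.H83.UE

theorem coeff_pol {k : ℕ} (a : Fin (k + 1) → ℂ) (i : Fin (k + 1)) :
    (pol a).coeff (i : ℕ) = a i := by
  unfold pol
  rw [Polynomial.finsetSum_coeff]
  simp only [Polynomial.coeff_C_mul, Polynomial.coeff_X_pow]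
  rw [Finset.sum_eq_single i]
  · simp
  · intro j _ hj
    rw [if_neg, mul_zero]
    intro h
    exact hj (Fin.ext h.symm)
  · intro h
    exact absurd (Finset.mem_univ _) h

/-- the counting -/
theorem count {r k C D N : ℕ} (hr : 1 ≤ r) (k' : ℕ) (hk' : k' ≤ k)
    (hD : D = k ^ r * C * r ^ (r - 1)) (hN : N ≤ C * (D * r + 1) ^ (r - 1)) :
    k' ^ r * N < (D + 1) ^ r := by
  have h1 : D * r + 1 ≤ r * (D + 1) := by nlinarith
  have h2 : (D * r + 1) ^ (r - 1) ≤ r ^ (r - 1) * (D + 1) ^ (r - 1) := by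
    rw [← mul_pow]
    exact Nat.pow_le_pow_left h1 _
  have h3 : k' ^ r ≤ k ^ r := Nat.pow_le_pow_left hk' _
  calc k' ^ r * N ≤ k ^ r * (C * (r ^ (r - 1) * (D + 1) ^ (r - 1))) :=
        Nat.mul_le_mul h3 (hN.trans (Nat.mul_le_mul le_rfl h2))
    _ = D * (D + 1) ^ (r - 1) := by rw [hD]; ring
    _ < (D + 1) * (D + 1) ^ (r - 1) :=
        Nat.mul_lt_mul_of_pos_right (Nat.lt_succ_self _) (pow_pos (Nat.succ_pos _) _)
    _ = (D + 1) ^ r := by
        rw [← pow_succ']
        congr 1
        omega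

/-- nonzero kernel -/
theorem ker {α γ : Type} [Fintype α] [Fintype γ] (h : Fintype.card γ < Fintype.card α)
    (c : α → γ → ℂ) : ∃ p : α → ℂ, p ≠ 0 ∧ ∀ g, ∑ s, p s * c s g = 0 := by
  let f : (α → ℂ) →ₗ[ℂ] (γ → ℂ) :=
    { toFun := fun p g => ∑ s, p s * c s g
      map_add' := fun p q => by
        funext g
        simp only [Pi.add_apply, add_mul, Finset.sum_add_distrib]
      map_smul' := fun a p => by
        funext g
        simp only [Pi.smul_apply, smul_eq_mul, RingHom.id_apply, Finset.mul_sum, mul_assoc] }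
  have h1 : LinearMap.ker f ≠ ⊥ := by
    apply LinearMap.ker_ne_bot_of_finrank_lt
    simpa using h
  obtain ⟨p, hp, hp0⟩ := (Submodule.ne_bot_iff _).1 h1
  refine ⟨p, hp0, fun g => ?_⟩
  have h2 : f p = 0 := hp
  exact congrFun h2 g

theorem elim_aux (h1 : T_HFB) (h2 : T_RDN) (k : ℕ) (𝓖 : Set (MvPolynomial (Fin (k + 1)) ℂ))
    (h𝓖 : ∀ F ∈ 𝓖, ∃ N, F.IsHomogeneous N) (β : Type) [Fintype β] [DecidableEq β]
    (hr : 1 ≤ Fintype.card β)
    (L : Fin (Fintype.card β) → MvPolynomial (Fin (k + 1)) ℂ) (hL : ∀ i, (L i).IsHomogeneous 1)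
    (hX : ∀ a : Fin (k + 1) → ℂ, (∀ F ∈ 𝓖, MvPolynomial.eval a F = 0) →
      (∀ i, MvPolynomial.eval a (L i) = 0) → a = 0) (k' : Fin (k + 1)) (hk' : 1 ≤ (k' : ℕ)) :
    ∃ P : MvPolynomial β ℂ, P ≠ 0 ∧ ∀ a : Fin (k + 1) → ℂ,
      (∀ F ∈ 𝓖, MvPolynomial.eval a F = 0) → (∀ i, k' < i → a i = 0) → a k' ≠ 0 →
      ∀ ζ : β → ℂ, (∀ l, (pol a).eval (ζ l) = 0) → MvPolynomial.eval ζ P = 0 := by
  classical
  obtain ⟨C, hC⟩ := h1 (k + 1) (Fintype.card β) hr 𝓖 h𝓖 L hL hX
  obtain ⟨D, hD⟩ : ∃ D, D = k ^ Fintype.card β * C * Fintype.card β ^ (Fintype.card β - 1) :=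
    ⟨_, rfl⟩
  obtain ⟨N, hN, b, hb⟩ := hC (D * Fintype.card β)
  have hkk : (k' : ℕ) ≤ k := Nat.lt_succ_iff.1 k'.2
  choose q hqh hq using h2 k (k' : ℕ) hk' hkk
  -- the products
  let T : (β → Fin (D + 1)) → (β → Fin (k' : ℕ)) → MvPolynomial (Fin (k + 1)) ℂ := fun s i =>
    MvPolynomial.X k' ^ (D * Fintype.card β - ∑ l, (s l : ℕ)) * ∏ l, q (s l : ℕ) (i l)
  have hs : ∀ s : β → Fin (D + 1), ∑ l, (s l : ℕ) ≤ D * Fintype.card β := by
    intro s
    calc ∑ l, (s l : ℕ) ≤ ∑ _l : β, D := Finset.sum_le_sum fun l _ => Nat.lt_succ_iff.1 (s l).2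
      _ = D * Fintype.card β := by rw [Finset.sum_const, Finset.card_univ, smul_eq_mul, mul_comm]
  have hT : ∀ s i, (T s i).IsHomogeneous (D * Fintype.card β) := by
    intro s i
    have e1 : (MvPolynomial.X k' ^ (D * Fintype.card β - ∑ l, (s l : ℕ)) :
        MvPolynomial (Fin (k + 1)) ℂ).IsHomogeneous (D * Fintype.card β - ∑ l, (s l : ℕ)) :=
      MvPolynomial.isHomogeneous_X_pow _ _
    have e2 : (∏ l, q (s l : ℕ) (i l)).IsHomogeneous (∑ l, (s l : ℕ)) :=
      MvPolynomial.IsHomogeneous.prod _ _ _ fun l _ => hqh _ _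
    have e3 := e1.mul e2
    rwa [Nat.sub_add_cancel (hs s)] at e3
  choose c hc using fun s i => hb (T s i) (hT s i)
  -- the kernel
  have hcard : Fintype.card ((β → Fin (k' : ℕ)) × Fin N) < Fintype.card (β → Fin (D + 1)) := by
    rw [Fintype.card_prod, Fintype.card_fun, Fintype.card_fun, Fintype.card_fin, Fintype.card_fin,
      Fintype.card_fin]
    exact count hr (k' : ℕ) hkk hD hN
  obtain ⟨p, hp0, hp⟩ := ker hcard (fun s g => c s g.1 g.2)
  refine ⟨∑ s, MvPolynomial.monomial
    (Finsupp.equivFunOnFinite.symm fun l => (s l : ℕ)) (p s), ?_, ?_⟩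
  · intro h0
    apply hp0
    funext s₀
    have h3 := congrArg (MvPolynomial.coeff (Finsupp.equivFunOnFinite.symm fun l => (s₀ l : ℕ))) h0
    rw [MvPolynomial.coeff_sum, MvPolynomial.coeff_zero] at h3
    rw [Finset.sum_eq_single s₀] at h3
    · rw [MvPolynomial.coeff_monomial, if_pos rfl] at h3
      exact h3
    · intro s _ hss
      rw [MvPolynomial.coeff_monomial, if_neg]
      intro h4
      apply hss
      funext l
      have h5 := congrFun (Finsupp.equivFunOnFinite.symm.injective h4) l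
      exact Fin.ext h5
    · intro h
      exact absurd (Finset.mem_univ _) h
  · intro a ha hai hak ζ hζ
    have ht : a k' ^ (D * Fintype.card β) ≠ 0 := pow_ne_zero _ hak
    apply (mul_eq_zero.1 (?_ : a k' ^ (D * Fintype.card β) * _ = 0)).resolve_left ht
    rw [map_sum, Finset.mul_sum]
    have e1 : ∀ s : β → Fin (D + 1), a k' ^ (D * Fintype.card β) *
        MvPolynomial.eval ζ (MvPolynomial.monomial
          (Finsupp.equivFunOnFinite.symm fun l => (s l : ℕ)) (p s)) =
        ∑ i : β → Fin (k' : ℕ), (∏ l, ζ l ^ (i l : ℕ)) *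
          ∑ n, (p s * c s i n) * MvPolynomial.eval a (b n) := by
      intro s
      rw [MvPolynomial.eval_monomial, Finsupp.prod_fintype _ _ (fun i => pow_zero _)]
      simp only [Finsupp.equivFunOnFinite_symm_apply_apply]
      have e2 : ∀ i, ∑ n, (p s * c s i n) * MvPolynomial.eval a (b n) =
          p s * (a k' ^ (D * Fintype.card β - ∑ l, (s l : ℕ)) *
            ∏ l, MvPolynomial.eval a (q (s l : ℕ) (i l))) := by
        intro i
        have e3 := hc s i a ha
        simp only [T, map_mul, map_pow, map_prod, MvPolynomial.eval_X] at e3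
        rw [e3, Finset.mul_sum]
        refine Finset.sum_congr rfl fun n _ => by ring
      simp only [e2]
      have e4 : a k' ^ (D * Fintype.card β) = a k' ^ (D * Fintype.card β - ∑ l, (s l : ℕ)) *
          ∏ l, a k' ^ (s l : ℕ) := by
        rw [Finset.prod_pow_eq_pow_sum, ← pow_add, Nat.sub_add_cancel (hs s)]
      have e5 : ∏ l, (a k' * ζ l) ^ (s l : ℕ) =
          ∑ i : β → Fin (k' : ℕ), ∏ l, (MvPolynomial.eval a (q (s l : ℕ) (i l)) *
            ζ l ^ (i l : ℕ)) := by
        have e6 : ∀ l, (a k' * ζ l) ^ (s l : ℕ) =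
            ∑ i, MvPolynomial.eval a (q (s l : ℕ) i) * ζ l ^ (i : ℕ) := by
          intro l
          have e7 := hq (s l : ℕ) a (fun i hi => hai i hi) (ζ l) (hζ l)
          rwa [coeff_pol a k'] at e7
        simp only [e6]
        rw [Finset.prod_univ_sum]
        rw [Fintype.piFinset_univ]
      calc a k' ^ (D * Fintype.card β) * (p s * ∏ l, ζ l ^ (s l : ℕ)) =
          p s * (a k' ^ (D * Fintype.card β - ∑ l, (s l : ℕ)) *
            ∏ l, (a k' * ζ l) ^ (s l : ℕ)) := by
            rw [e4]
            simp only [mul_pow, Finset.prod_mul_distrib]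
            ring
        _ = _ := by
            rw [e5, Finset.mul_sum, Finset.mul_sum]
            refine Finset.sum_congr rfl fun i _ => ?_
            rw [Finset.prod_mul_distrib]
            ring
    rw [Finset.sum_congr rfl fun s _ => e1 s, Finset.sum_comm]
    refine Finset.sum_eq_zero fun i _ => ?_
    rw [← Finset.mul_sum, Finset.sum_comm]
    simp only [← Finset.sum_mul]
    have e8 : ∀ n, ∑ s, p s * c s i n = 0 := fun n => hp (i, n)
    simp only [e8, zero_mul, Finset.sum_const_zero, mul_zero]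

theorem pf_ELI (h1 : T_HFB) (h2 : T_RDN) : T_ELI := by
  classical
  intro k r 𝓖 h𝓖 L hL hX B hrB
  rcases Nat.eq_zero_or_pos r with hr | hr
  · subst hr
    refine ⟨1, one_ne_zero, ?_, ?_⟩
    · rw [MvPolynomial.vars_one]
      exact Finset.empty_subset _
    · intro a ha hF
      exact absurd (hX a hF fun i => i.elim0) ha
  · obtain ⟨B', hB', hcB⟩ := Finset.exists_subset_card_eq hrB
    have hcard : Fintype.card {l // l ∈ B'} = r := by rw [Fintype.card_coe, hcB]
    subst hcard
    have key := elim_aux h1 h2 k 𝓖 h𝓖 {l // l ∈ B'} hr L hL hX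
    choose P hP0 hP using key
    let h₀ : MvPolynomial {l // l ∈ B'} ℂ :=
      ∏ k' : Fin (k + 1), if hk : 1 ≤ (k' : ℕ) then P k' hk else 1
    refine ⟨MvPolynomial.rename Subtype.val h₀, ?_, ?_, ?_⟩
    · intro h
      have h3 : h₀ = 0 := by
        apply MvPolynomial.rename_injective _ Subtype.val_injective
        rw [h, map_zero]
      have h4 := Finset.prod_eq_zero_iff.1 h3
      obtain ⟨k', _, h5⟩ := h4
      by_cases hk : 1 ≤ (k' : ℕ)
      · rw [dif_pos hk] at h5
        exact hP0 k' hk h5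
      · rw [dif_neg hk] at h5
        exact one_ne_zero h5
    · intro l hl
      have h3 := MvPolynomial.vars_rename Subtype.val h₀ hl
      obtain ⟨x, _, hx⟩ := Finset.mem_image.1 h3
      rw [← hx]
      exact hB' x.2
    · intro a ha hF ζ hζ
      rw [MvPolynomial.eval_rename]
      have hζ' : ∀ l : {l // l ∈ B'}, (pol a).eval ((ζ ∘ Subtype.val) l) = 0 :=
        fun l => hζ l.1 (hB' l.2)
      -- the largest index
      have hne : (Finset.univ.filter fun i => a i ≠ 0).Nonempty := by
        by_contra h3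
        rw [Finset.not_nonempty_iff_eq_empty, Finset.filter_eq_empty_iff] at h3
        apply ha
        funext i
        have := h3 (Finset.mem_univ i)
        push Not at this
        exact this
      obtain ⟨k', hk', hmax⟩ := Finset.exists_max_image _ id hne
      have hak : a k' ≠ 0 := (Finset.mem_filter.1 hk').2
      have hai : ∀ i, k' < i → a i = 0 := by
        intro i hi
        by_contra h3
        have h4 := hmax i (Finset.mem_filter.2 ⟨Finset.mem_univ _, h3⟩)
        exact absurd hi (not_lt.2 h4)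
      rw [map_prod]
      by_cases hk : 1 ≤ (k' : ℕ)
      · apply Finset.prod_eq_zero (Finset.mem_univ k')
        rw [dif_pos hk]
        exact hP k' hk a hF hai hak _ hζ'
      · exfalso
        have hk0 : k' = 0 := by
          apply Fin.ext
          rw [Fin.val_zero]
          omega
        have h3 : pol a = C (a 0) := by
          unfold pol
          rw [Finset.sum_eq_single 0]
          · simp
          · intro j _ hj
            have h4 : a j = 0 := by
              apply hai
              rw [hk0]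
              exact Fin.pos_of_ne_zero hj
            rw [h4, C_0, zero_mul]
          · intro h
            exact absurd (Finset.mem_univ _) h
        obtain ⟨l⟩ : Nonempty {l // l ∈ B'} := by
          rw [← Fintype.card_pos_iff]
          exact hr
        have h4 := hζ' l
        rw [h3, eval_C] at h4
        rw [hk0] at hak
        exact hak h4

end Pool.Agent.H88.UDB
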