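import Pool.Agent.H83.UE.Targets3

/-! Row LJN of the board `udb_modules`: the Lojasiewicz inequality from the Nullstellensatz. -/

set_option autoImplicit false

open Polynomial MeasureTheory Filter Topology Set
open scoped OnePoint ComplexConjugate ComplexOrder Laplacian ENNReal Nat

namespace Pool.Agent.H88.UDB

open Pool.Agent.H83.UE

/-- value of a homogeneous polynomial at a multiple -/
theorem eval_hom {n N : ℕ} {F : MvPolynomial (Fin n) ℂ} (hF : F.IsHomogeneous N) (c : ℂ)
    (a : Fin n → ℂ) : MvPolynomial.eval (fun i => c * a i) F = c ^ N * MvPolynomial.eval a F := by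
  rw [MvPolynomial.eval_eq', MvPolynomial.eval_eq', Finset.mul_sum]
  refine Finset.sum_congr rfl fun α hα => ?_
  have h1 : ∑ i, α i = N := by
    have := hF (MvPolynomial.mem_support_iff.1 hα)
    rw [Finsupp.weight_apply, Finsupp.sum_fintype] at this
    · simpa using this
    · intro i; simp
  have h2 : ∏ i, (c * a i) ^ α i = c ^ N * ∏ i, a i ^ α i := by
    rw [← h1, ← Finset.prod_pow_eq_pow_sum, ← Finset.prod_mul_distrib]
    refine Finset.prod_congr rfl fun i _ => mul_pow _ _ _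
  rw [h2]
  ring

/-- the values of a polynomial on the polydisc are bounded -/
theorem bdd {ι : Type} [Fintype ι] (q : MvPolynomial ι ℂ) :
    ∃ K : ℝ, 0 ≤ K ∧ ∀ p : ι → ℂ, ‖p‖ ≤ 1 → ‖MvPolynomial.eval p q‖ ≤ K := by
  have hc : IsCompact (Metric.closedBall (0 : ι → ℂ) 1) := isCompact_closedBall _ _
  have hf : ContinuousOn (fun p : ι → ℂ => MvPolynomial.eval p q)
      (Metric.closedBall (0 : ι → ℂ) 1) := (MvPolynomial.continuous_eval q).continuousOn
  obtain ⟨K, hK⟩ := hc.exists_bound_of_continuousOn hf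
  refine ⟨max K 0, le_max_right _ _, fun p hp => (hK p ?_).trans (le_max_left _ _)⟩
  rw [mem_closedBall_zero_iff]
  exact hp

/-- the polynomials in the ideal of `S ∪ T` are small where those in `S` vanish and those in
`T` are small -/
theorem small {ι : Type} [Fintype ι] (S T : Set (MvPolynomial ι ℂ)) (q : MvPolynomial ι ℂ)
    (hq : q ∈ Ideal.span (S ∪ T)) :
    ∃ K : ℝ, 0 ≤ K ∧ ∀ p : ι → ℂ, ‖p‖ ≤ 1 → (∀ f ∈ S, MvPolynomial.eval p f = 0) →
      ∀ t : ℝ, 0 ≤ t → (∀ f ∈ T, ‖MvPolynomial.eval p f‖ ≤ t) →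
        ‖MvPolynomial.eval p q‖ ≤ K * t := by
  induction hq using Submodule.span_induction with
  | mem x hx =>
    rcases hx with h | h
    · refine ⟨0, le_rfl, fun p _ hS t _ _ => ?_⟩
      rw [hS x h, norm_zero, zero_mul]
    · refine ⟨1, zero_le_one, fun p _ _ t _ hT => ?_⟩
      rw [one_mul]
      exact hT x h
  | zero =>
    refine ⟨0, le_rfl, fun p _ hS t _ _ => ?_⟩
    rw [map_zero, norm_zero, zero_mul]
  | add x y _ _ hx hy =>
    obtain ⟨K, hK, h1⟩ := hx
    obtain ⟨K', hK', h2⟩ := hy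
    refine ⟨K + K', add_nonneg hK hK', fun p hp hS t ht hT => ?_⟩
    rw [map_add, add_mul]
    exact (norm_add_le _ _).trans (add_le_add (h1 p hp hS t ht hT) (h2 p hp hS t ht hT))
  | smul a x _ hx =>
    obtain ⟨K, hK, h1⟩ := hx
    obtain ⟨K', hK', h2⟩ := bdd a
    refine ⟨K' * K, mul_nonneg hK' hK, fun p hp hS t ht hT => ?_⟩
    rw [smul_eq_mul, map_mul, norm_mul, mul_assoc]
    exact mul_le_mul (h2 p hp) (h1 p hp hS t ht hT) (norm_nonneg _) hK'

section

variable {k : ℕ}

/-- the coefficients as polynomials -/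
noncomputable def HC (i : Fin (k + 1)) : MvPolynomial (Fin k × Fin 2) ℂ :=
  (∏ l : Fin k, (C (MvPolynomial.X (l, 1)) * X - C (MvPolynomial.X (l, 0)) :
    (MvPolynomial (Fin k × Fin 2) ℂ)[X])).coeff i

theorem eval_HC (p : Fin k × Fin 2 → ℂ) (i : Fin (k + 1)) :
    MvPolynomial.eval p (HC i) = hcoef (fun l => (p (l, 0), p (l, 1))) i := by
  unfold HC hcoef
  rw [← Polynomial.coeff_map, Polynomial.map_prod]
  congr 1
  refine Finset.prod_congr rfl fun l _ => ?_
  simp

/-- the homogenisation -/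
noncomputable def Hh (h : MvPolynomial (Fin k) ℂ) (B : Finset (Fin k)) (D : ℕ) :
    MvPolynomial (Fin k × Fin 2) ℂ :=
  ∑ α ∈ h.support, MvPolynomial.C (h.coeff α) *
    ∏ l ∈ B, (MvPolynomial.X (l, 0) ^ α l * MvPolynomial.X (l, 1) ^ (D - α l))

theorem eval_Hh0 (h : MvPolynomial (Fin k) ℂ) (B : Finset (Fin k)) (D : ℕ)
    (hD : ∀ l, h.degreeOf l < D) (p : Fin k × Fin 2 → ℂ) (l : Fin k) (hl : l ∈ B)
    (h0 : p (l, 1) = 0) : MvPolynomial.eval p (Hh h B D) = 0 := by
  unfold Hh
  rw [map_sum]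
  refine Finset.sum_eq_zero fun α hα => ?_
  rw [map_mul, map_prod, Finset.prod_eq_zero hl, mul_zero]
  rw [map_mul, map_pow, map_pow, MvPolynomial.eval_X, MvPolynomial.eval_X, h0]
  have h1 : α l ≤ h.degreeOf l := MvPolynomial.monomial_le_degreeOf l hα
  have h2 : D - α l ≠ 0 := by
    have := hD l
    omega
  rw [zero_pow h2, mul_zero]

theorem eval_Hh (h : MvPolynomial (Fin k) ℂ) (B : Finset (Fin k)) (hB : h.vars ⊆ B) (D : ℕ)
    (hD : ∀ l, h.degreeOf l < D) (p : Fin k × Fin 2 → ℂ)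
    (h0 : ∀ l ∈ B, p (l, 1) ≠ 0) : MvPolynomial.eval p (Hh h B D) =
      (∏ l ∈ B, p (l, 1) ^ D) * MvPolynomial.eval (fun l => p (l, 0) / p (l, 1)) h := by
  unfold Hh
  rw [map_sum, MvPolynomial.eval_eq', Finset.mul_sum]
  refine Finset.sum_congr rfl fun α hα => ?_
  rw [map_mul, map_prod, MvPolynomial.eval_C]
  have h1 : ∏ i, (p (i, 0) / p (i, 1)) ^ α i = ∏ i ∈ B, (p (i, 0) / p (i, 1)) ^ α i := by
    symm
    refine Finset.prod_subset (Finset.subset_univ _) fun i _ hi => ?_
    have h2 : α i = 0 := by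
      by_contra h3
      exact hi (hB ((MvPolynomial.mem_vars_iff_mem_support i).2 ⟨α, hα, Finsupp.mem_support_iff.2 h3⟩))
    rw [h2, pow_zero]
  rw [h1]
  have h3 : ∏ l ∈ B, MvPolynomial.eval p (MvPolynomial.X (l, 0) ^ α l *
      MvPolynomial.X (l, 1) ^ (D - α l)) =
      (∏ l ∈ B, p (l, 1) ^ D) * ∏ i ∈ B, (p (i, 0) / p (i, 1)) ^ α i := by
    rw [← Finset.prod_mul_distrib]
    refine Finset.prod_congr rfl fun l hl => ?_
    rw [map_mul, map_pow, map_pow, MvPolynomial.eval_X, MvPolynomial.eval_X]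
    have h4 : α l ≤ h.degreeOf l := MvPolynomial.monomial_le_degreeOf l hα
    have h5 := hD l
    obtain ⟨e, he⟩ : ∃ e, D = α l + e := ⟨D - α l, by omega⟩
    have h6 := h0 l hl
    rw [he, Nat.add_sub_cancel_left, pow_add, div_pow]
    field_simp
  rw [h3]
  ring

end

theorem norm_pair (z : ℂ) : ‖(z, (1 : ℂ))‖ = max 1 ‖z‖ := by
  rw [Prod.norm_def, norm_one, max_comm]

theorem pf_LJN : T_LJN := by
  classical
  intro k 𝓕 h𝓕 A B ε h hB hv
  -- the degree
  obtain ⟨D, hD⟩ : ∃ D : ℕ, ∀ l, h.degreeOf l < D :=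
    ⟨h.totalDegree + 1, fun l => Nat.lt_succ_of_le (MvPolynomial.degreeOf_le_totalDegree h l)⟩
  let S : Set (MvPolynomial (Fin k × Fin 2) ℂ) := {f | ∃ F ∈ 𝓕, f = MvPolynomial.aeval HC F}
  let W : Fin k → MvPolynomial (Fin k × Fin 2) ℂ := fun l =>
    MvPolynomial.X (l, 0) * MvPolynomial.C (vec (ε l)).2 -
      MvPolynomial.X (l, 1) * MvPolynomial.C (vec (ε l)).1
  let T : Set (MvPolynomial (Fin k × Fin 2) ℂ) := {f | ∃ l ∈ A, f = W l}
  have eS : ∀ (p : Fin k × Fin 2 → ℂ) (F : MvPolynomial (Fin (k + 1)) ℂ),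
      MvPolynomial.eval p (MvPolynomial.aeval HC F) =
        MvPolynomial.eval (hcoef (fun l => (p (l, 0), p (l, 1)))) F := by
    intro p F
    rw [MvPolynomial.aeval_def, MvPolynomial.algebraMap_eq, MvPolynomial.eval₂_eq', map_sum,
      MvPolynomial.eval_eq']
    refine Finset.sum_congr rfl fun α _ => ?_
    rw [map_mul, MvPolynomial.eval_C, map_prod]
    congr 1
    refine Finset.prod_congr rfl fun i _ => ?_
    rw [map_pow, eval_HC]
  have eW : ∀ (p : Fin k × Fin 2 → ℂ) (l : Fin k),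
      MvPolynomial.eval p (W l) = wd (p (l, 0), p (l, 1)) (vec (ε l)) := by
    intro p l
    simp only [W, wd, map_sub, map_mul, MvPolynomial.eval_X, MvPolynomial.eval_C]
  -- the polynomials `Q s`
  let Q : (Fin k → Fin 2) → MvPolynomial (Fin k × Fin 2) ℂ := fun s =>
    Hh h B D * ∏ l, MvPolynomial.X (l, s l)
  have hQ : ∀ s, ∃ N : ℕ, Q s ^ N ∈ Ideal.span (S ∪ T) := by
    intro s
    have h1 : Q s ∈ MvPolynomial.vanishingIdeal ℂ
        (MvPolynomial.zeroLocus ℂ (Ideal.span (S ∪ T))) := by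
      rw [MvPolynomial.mem_vanishingIdeal_iff]
      intro p hp
      rw [MvPolynomial.zeroLocus_span] at hp
      rw [MvPolynomial.aeval_eq_eval]
      change MvPolynomial.eval p (Hh h B D * ∏ l, MvPolynomial.X (l, s l)) = 0
      rw [map_mul, map_prod]
      by_cases c1 : ∃ l, (p (l, 0), p (l, 1)) = (0 : ℂ × ℂ)
      · obtain ⟨l, hl⟩ := c1
        have h2 : p (l, s l) = 0 := by
          rw [Prod.ext_iff] at hl
          have h3 : s l = 0 ∨ s l = 1 := by
            have := (s l).2
            rcases Nat.lt_or_ge (s l).1 1 with h4 | h4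
            · left; ext; simp; omega
            · right; ext; simp; omega
          rcases h3 with h3 | h3
          · rw [h3]; exact hl.1
          · rw [h3]; exact hl.2
        rw [Finset.prod_eq_zero (Finset.mem_univ l), mul_zero]
        rw [MvPolynomial.eval_X, h2]
      · push Not at c1
        have h2 : MvPolynomial.eval p (Hh h B D) = 0 := by
          by_cases c2 : ∃ l ∈ B, p (l, 1) = 0
          · obtain ⟨l, hl, h3⟩ := c2
            exact eval_Hh0 h B D hD p l hl h3
          · push Not at c2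
            rw [eval_Hh h B hB D hD p c2]
            have h3 := hv (fun l => (p (l, 0), p (l, 1))) c1 ?_ ?_ c2
            · simp only at h3
              rw [h3, mul_zero]
            · intro F hF
              rw [← eS]
              have := hp _ (Or.inl ⟨F, hF, rfl⟩)
              rwa [MvPolynomial.aeval_eq_eval] at this
            · intro l hl
              rw [← eW]
              have := hp _ (Or.inr ⟨l, hl, rfl⟩)
              rwa [MvPolynomial.aeval_eq_eval] at this
        rw [h2, zero_mul]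
    rw [MvPolynomial.vanishingIdeal_zeroLocus_eq_radical] at h1
    exact h1
  choose Ns hNs using hQ
  choose Ks hKs0 hKs using fun s => small S T (Q s ^ Ns s) (hNs s)
  obtain ⟨K₁, hK₁, hb⟩ := bdd (Hh h B D)
  let K : ℝ := K₁ + 1
  have hK1 : 1 ≤ K := by simp only [K]; linarith
  let M : ℝ := ∑ l, ‖vec (ε l)‖
  have hM : ∀ l, ‖vec (ε l)‖ ≤ M := fun l =>
    Finset.single_le_sum (f := fun l => ‖vec (ε l)‖) (fun _ _ => norm_nonneg _) (Finset.mem_univ l)
  have hM0 : 0 ≤ M := Finset.sum_nonneg fun _ _ => norm_nonneg _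
  let N : ℕ := ∑ s, Ns s + 1
  refine ⟨D, N, ∑ s, Ks s * M * K ^ N, Nat.succ_pos _, fun l => (hD l).le, ?_⟩
  intro z hz t ht hA
  -- the point
  let m : Fin k → ℝ := fun l => max 1 ‖z l‖
  have hm : ∀ l, 1 ≤ m l := fun l => le_max_left _ _
  have hm' : ∀ l, (m l : ℂ) ≠ 0 := fun l => by
    have := hm l
    exact_mod_cast (by linarith : m l ≠ 0)
  let p : Fin k × Fin 2 → ℂ := fun x => if x.2 = 0 then z x.1 / (m x.1 : ℂ) else 1 / (m x.1 : ℂ)
  have hp0 : ∀ l, p (l, 0) = z l / (m l : ℂ) := fun l => rfl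
  have hp1 : ∀ l, p (l, 1) = 1 / (m l : ℂ) := fun l => rfl
  have hn0 : ∀ l, ‖p (l, 0)‖ = ‖z l‖ / m l := by
    intro l
    rw [hp0, norm_div, Complex.norm_real, Real.norm_of_nonneg (zero_le_one.trans (hm l))]
  have hn1 : ∀ l, ‖p (l, 1)‖ = 1 / m l := by
    intro l
    rw [hp1, norm_div, Complex.norm_real, Real.norm_of_nonneg (zero_le_one.trans (hm l)), norm_one]
  have hpn : ‖p‖ ≤ 1 := by
    rw [pi_norm_le_iff_of_nonneg zero_le_one]
    rintro ⟨l, j⟩
    have h3 : j = 0 ∨ j = 1 := by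
      have := j.2
      rcases Nat.lt_or_ge j.1 1 with h4 | h4
      · left; ext; simp; omega
      · right; ext; simp; omega
    have h1 : 0 < m l := by have := hm l; linarith
    rcases h3 with h3 | h3
    · rw [h3, hn0, div_le_one h1]
      exact le_max_right _ _
    · rw [h3, hn1, div_le_one h1]
      exact hm l
  -- the choice of `s`
  let s : Fin k → Fin 2 := fun l => if 1 ≤ ‖z l‖ then 0 else 1
  have hs : ∀ l, ‖p (l, s l)‖ = 1 := by
    intro l
    by_cases c : 1 ≤ ‖z l‖
    · have : s l = 0 := if_pos c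
      rw [this, hn0]
      have h1 : m l = ‖z l‖ := max_eq_right c
      rw [h1, div_self]
      linarith
    · have : s l = 1 := if_neg c
      rw [this, hn1]
      have h1 : m l = 1 := max_eq_left (not_le.1 c).le
      rw [h1, div_one]
  -- the equations
  have hS : ∀ f ∈ S, MvPolynomial.eval p f = 0 := by
    rintro f ⟨F, hF, rfl⟩
    rw [eS]
    obtain ⟨n, hn⟩ := h𝓕 F hF
    have h1 : hcoef (fun l => (p (l, 0), p (l, 1))) =
        fun i => (∏ l, (1 / (m l : ℂ))) * (Fin.snoc (coef z) 1 : Fin (k + 1) → ℂ) i := by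
      funext i
      have h2 : (Fin.snoc (coef z) 1 : Fin (k + 1) → ℂ) i = (∏ l, (X - C (z l))).coeff (i : ℕ) := by
        refine Fin.lastCases ?_ (fun j => ?_) i
        · rw [Fin.snoc_last, Fin.val_last]
          have h3 : (∏ l : Fin k, (X - C (z l))).Monic :=
            monic_prod_of_monic _ _ fun l _ => monic_X_sub_C _
          have h4 : (∏ l : Fin k, (X - C (z l))).natDegree = k := by
            rw [natDegree_prod_of_monic _ _ fun l _ => monic_X_sub_C _]
            simp
          have h5 := h3.coeff_natDegree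
          rw [h4] at h5
          exact h5.symm
        · rw [Fin.snoc_castSucc]
          rfl
      rw [h2]
      unfold hcoef
      have h3 : ∏ l, (C (p (l, 1)) * X - C (p (l, 0))) =
          C (∏ l, (1 / (m l : ℂ))) * ∏ l, (X - C (z l)) := by
        rw [map_prod, ← Finset.prod_mul_distrib]
        refine Finset.prod_congr rfl fun l _ => ?_
        rw [hp0, hp1, mul_sub, ← C_mul]
        congr 2
        ring
      simp only [h3, Polynomial.coeff_C_mul]
    rw [h1, eval_hom hn]
    have h2 := hz F hF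
    rw [h2, mul_zero]
  have hT : ∀ f ∈ T, ‖MvPolynomial.eval p f‖ ≤ M * t := by
    rintro f ⟨l, hl, rfl⟩
    rw [eW, hp0, hp1]
    have h1 := hA l hl
    unfold cd at h1
    rw [norm_pair] at h1
    have h2 : 0 < m l := by have := hm l; linarith
    have h3 : wd (z l / (m l : ℂ), 1 / (m l : ℂ)) (vec (ε l)) =
        wd (z l, 1) (vec (ε l)) / (m l : ℂ) := by
      unfold wd
      simp only
      ring
    rw [h3, norm_div, Complex.norm_real, Real.norm_of_nonneg h2.le]
    have hv0 : 0 < ‖vec (ε l)‖ := by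
      rw [norm_pos_iff]
      unfold vec
      cases ε l with
      | infty => 
        intro h4
        have := congrArg Prod.fst h4
        exact one_ne_zero this
      | coe a =>
        intro h4
        have := congrArg Prod.snd h4
        exact one_ne_zero this
    have h4 : ‖wd (z l, 1) (vec (ε l))‖ ≤ t * (m l * ‖vec (ε l)‖) := by
      rwa [div_le_iff₀ (mul_pos h2 hv0)] at h1
    rw [div_le_iff₀ h2]
    calc ‖wd (z l, 1) (vec (ε l))‖ ≤ t * (m l * ‖vec (ε l)‖) := h4
      _ ≤ t * (m l * M) := by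
        gcongr
        exact hM l
      _ = M * t * m l := by ring
  have hf := hKs s p hpn hS (M * t) (mul_nonneg hM0 ht) hT
  -- the value of `Q s`
  have hQs : ‖MvPolynomial.eval p (Q s)‖ = ‖MvPolynomial.eval p (Hh h B D)‖ := by
    change ‖MvPolynomial.eval p (Hh h B D * ∏ l, MvPolynomial.X (l, s l))‖ = _
    rw [map_mul, map_prod, norm_mul, norm_prod]
    have : ∏ l, ‖MvPolynomial.eval p (MvPolynomial.X (l, s l))‖ = 1 := by
      refine Finset.prod_eq_one fun l _ => ?_
      rw [MvPolynomial.eval_X]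
      exact hs l
    rw [this, mul_one]
  rw [map_pow, norm_pow, hQs] at hf
  have hH : ‖MvPolynomial.eval p (Hh h B D)‖ =
      ‖MvPolynomial.eval z h‖ / ∏ l ∈ B, m l ^ D := by
    rw [eval_Hh h B hB D hD p (fun l _ => by
      rw [hp1]; exact div_ne_zero one_ne_zero (hm' l))]
    have h1 : (fun l => p (l, 0) / p (l, 1)) = z := by
      funext l
      rw [hp0, hp1]
      have := hm' l
      field_simp
    rw [h1, norm_mul, norm_prod]
    have h2 : ∏ l ∈ B, ‖p (l, 1) ^ D‖ = (∏ l ∈ B, m l ^ D)⁻¹ := by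
      rw [← Finset.prod_inv_distrib]
      refine Finset.prod_congr rfl fun l _ => ?_
      rw [norm_pow, hn1, one_div, inv_pow]
    rw [h2]
    ring
  set x := ‖MvPolynomial.eval p (Hh h B D)‖ with hx
  have hx0 : 0 ≤ x := norm_nonneg _
  have hxK : x ≤ K := (hb p hpn).trans (by simp only [K]; linarith)
  have hNle : Ns s ≤ N := by
    have : Ns s ≤ ∑ s, Ns s :=
      Finset.single_le_sum (f := Ns) (fun _ _ => Nat.zero_le _) (Finset.mem_univ s)
    simp only [N]
    omega
  have hfin : x ^ N ≤ (∑ s, Ks s * M * K ^ N) * t := by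
    have h1 : x ^ N = x ^ Ns s * x ^ (N - Ns s) := by
      rw [← pow_add]
      congr 1
      omega
    rw [h1]
    have h2 : x ^ (N - Ns s) ≤ K ^ N :=
      (pow_le_pow_left₀ hx0 hxK _).trans (pow_le_pow_right₀ hK1 (Nat.sub_le _ _))
    calc x ^ Ns s * x ^ (N - Ns s) ≤ (Ks s * (M * t)) * K ^ N := by
          refine mul_le_mul hf h2 (pow_nonneg hx0 _) ?_
          exact mul_nonneg (hKs0 s) (mul_nonneg hM0 ht)
      _ = (Ks s * M * K ^ N) * t := by ring
      _ ≤ _ := by
        refine mul_le_mul_of_nonneg_right ?_ ht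
        refine Finset.single_le_sum (f := fun s => Ks s * M * K ^ N) (fun s _ => ?_)
          (Finset.mem_univ s)
        exact mul_nonneg (mul_nonneg (hKs0 s) hM0) (pow_nonneg (zero_le_one.trans hK1) _)
  have hP : 0 < ∏ l ∈ B, m l ^ D := Finset.prod_pos fun l _ => by
    have := hm l
    positivity
  have hzx : ‖MvPolynomial.eval z h‖ = x * ∏ l ∈ B, m l ^ D := by
    rw [hH]
    field_simp
  rw [hzx, mul_pow]
  calc x ^ N * (∏ l ∈ B, m l ^ D) ^ N ≤
      ((∑ s, Ks s * M * K ^ N) * t) * (∏ l ∈ B, m l ^ D) ^ N :=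
        mul_le_mul_of_nonneg_right hfin (pow_nonneg hP.le _)
    _ = _ := by ring

end Pool.Agent.H88.UDB
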